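import Mathlib

open MeasureTheory Set Filter Topology Real
open scoped ContDiff

namespace Pool.Agent.Results.MP_e444d1_an.NoCBF

/-- completely monotone on `(0,∞)` -/
def CM (m : ℝ → ℝ) : Prop :=
  ContDiffOn ℝ ∞ m (Ioi 0) ∧ ∀ (k : ℕ) (t : ℝ), 0 < t → 0 ≤ (-1) ^ k * iteratedDeriv k m t

/-- complete Bernstein function on `(0,∞)` -/
def CBF (F : ℝ → ℝ) : Prop :=
  ∃ (a b : ℝ) (m : ℝ → ℝ), 0 ≤ a ∧ 0 ≤ b ∧ CM m ∧ IntegrableOn (fun t => min 1 t * m t) (Ioi 0) ∧
    ∀ x, 0 < x → F x = a + b * x + ∫ t in Ioi 0, (1 - exp (-(x * t))) * m t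

theorem result (p N D : ℝ) (hp : 1 < p) (hN : -1 < N) (hND : N < D) (hD : D ≤ 0) :
    ¬ ∃ F, CBF F ∧ Tendsto F (𝓝[>] 0) (𝓝 ((1 + N) / (1 + D))) ∧
      ∀ n : ℕ, 1 ≤ n → F n = (p ^ n + N) / (p ^ n + D) := by
  rintro ⟨F, ⟨a, b, m, -, hb, ⟨mc, mk⟩, mi, hF⟩, -, hn⟩
  have m0 : ∀ t, 0 < t → 0 ≤ m t := fun t ht => by simpa using mk 0 t ht
  have an : AntitoneOn m (Ioi 0) := antitoneOn_of_deriv_nonpos (convex_Ioi 0) mc.continuousOn
    (by rw [interior_Ioi]; exact mc.differentiableOn (by simp))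
    fun t ht => by rw [interior_Ioi] at ht; simpa using mk 1 t ht
  have I : ∀ x : ℝ, 1 ≤ x → IntegrableOn (fun t => (1 - exp (-(x * t))) * m t) (Ioi 0) := fun x hx => by
    refine (mi.const_mul x).mono' (ContinuousOn.aestronglyMeasurable
      ((by fun_prop : Continuous fun t => 1 - exp (-(x * t))).continuousOn.mul mc.continuousOn) measurableSet_Ioi)
      ((ae_restrict_mem measurableSet_Ioi).mono fun t (ht : 0 < t) => ?_)
    have e1 : exp (-(x * t)) ≤ 1 := exp_le_one_iff.2 (by nlinarith)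
    rw [norm_of_nonneg (mul_nonneg (by linarith) (m0 t ht)), ← mul_assoc]
    refine mul_le_mul_of_nonneg_right ?_ (m0 t ht)
    rcases min_cases 1 t with ⟨e, -⟩ | ⟨e, -⟩ <;> rw [e] <;>
      linarith [exp_pos (-(x * t)), add_one_le_exp (-(x * t))]
  have P : ∀ n : ℕ, 1 ≤ n → 0 < p ^ n + D ∧ p ^ n * (1 - 1 / p) ≤ p ^ n + D := fun n h => by
    have : p ≤ p ^ n := le_self_pow₀ hp.le (by omega)
    have : 1 ≤ p ^ n * (1 / p) := by rw [mul_one_div, one_le_div (by linarith)]; exact this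
    constructor <;> linarith
  have E : ∀ n : ℕ, 1 ≤ n → b + ∫ t in Ioi 0, exp (-(n * t)) * ((1 - exp (-t)) * m t) =
      (D - N) / (p ^ n + D) - (D - N) / (p ^ (n + 1) + D) := fun n h => by
    have h1 : (1 : ℝ) ≤ n := by exact_mod_cast h
    have a1 := hF n (by linarith)
    have a2 := hF (n + 1 : ℕ) (by positivity)
    rw [hn _ h] at a1
    rw [hn _ (by omega)] at a2
    have a3 := integral_sub (I (n + 1 : ℕ) (by push_cast; linarith)) (I n h1)
    rw [show (fun t => exp (-(n * t)) * ((1 - exp (-t)) * m t)) = fun t =>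
      (1 - exp (-((n + 1 : ℕ) * t))) * m t - (1 - exp (-(n * t))) * m t by
        ext t; push_cast; rw [add_mul, neg_add, exp_add]; ring_nf, a3]
    have b1 := (P n h).1.ne'
    have b2 := (P (n + 1) (by omega)).1.ne'
    have : ∀ y : ℝ, y + D ≠ 0 → (D - N) / (y + D) = 1 - (y + N) / (y + D) := fun y hy => by field_simp; ring
    rw [this _ b1, this _ b2, a1, a2]
    push_cast; ring
  have q : 0 < 1 - 1 / p := by rw [sub_pos, div_lt_one (by linarith)]; exact hp
  -- the increments are `O(p⁻ⁿ)`, so anything below them of the form `c rⁿ`, `r p > 1`, vanishes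
  have K : ∀ c r : ℝ, 1 < r * p → 0 < r → (∀ n : ℕ, 1 ≤ n →
      c * r ^ n ≤ b + ∫ t in Ioi 0, exp (-(n * t)) * ((1 - exp (-t)) * m t)) → c ≤ 0 := fun c r h r0 H => by
    by_contra! c0
    obtain ⟨n, h1, h2⟩ := (((tendsto_pow_atTop_atTop_of_one_lt h).eventually_gt_atTop
      ((D - N) / (1 - 1 / p) / c)).and (eventually_ge_atTop 1)).exists
    have h3 := H n h2
    rw [E n h2] at h3
    have h4 : 0 ≤ (D - N) / (p ^ (n + 1) + D) := div_nonneg (by linarith) (P _ (by omega)).1.le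
    have h5 : (D - N) / (p ^ n + D) ≤ (D - N) / (p ^ n * (1 - 1 / p)) :=
      div_le_div_of_nonneg_left (by linarith) (by positivity) (P n h2).2
    have h6 : c * r ^ n ≤ (D - N) / (1 - 1 / p) / p ^ n := by rw [div_div, mul_comm (1 - 1 / p)]; linarith
    rw [le_div_iff₀ (by positivity)] at h6
    rw [div_lt_iff₀ c0, mul_pow] at h1
    linarith
  have J0 : ∀ (n : ℕ) (t : ℝ), 0 < t → 0 ≤ exp (-(n * t)) * ((1 - exp (-t)) * m t) := fun n t ht =>
    mul_nonneg (exp_pos _).le (mul_nonneg (by simpa using ht.le) (m0 t ht))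
  have b0 : b ≤ 0 := K b 1 (by simpa) one_pos fun n _ => by
    simpa using setIntegral_nonneg measurableSet_Ioi (J0 n)
  have mz : ∀ t, 0 < t → m t = 0 := fun t ht => by
    obtain ⟨e, e0, e1, e2⟩ : ∃ e, 0 < e ∧ e ≤ t ∧ e < log p :=
      ⟨min t (log p / 2), lt_min ht (half_pos (log_pos hp)), min_le_left _ _,
        (min_le_right _ _).trans_lt (half_lt_self (log_pos hp))⟩
    have x1 : 0 < 1 - exp (-(e / 2)) := by simpa using e0
    have := K (e / 2 * ((1 - exp (-(e / 2))) * m t)) (exp (-e)) (by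
      rw [← exp_log (by linarith : 0 < p), ← exp_add, one_lt_exp_iff]; linarith) (exp_pos _) fun n h => ?_
    · exact le_antisymm (by by_contra! h; exact this.not_gt (by positivity)) (m0 t ht)
    have h1 : (1 : ℝ) ≤ n := by exact_mod_cast h
    have In : IntegrableOn (fun t => exp (-(n * t)) * ((1 - exp (-t)) * m t)) (Ioi 0) := by
      refine ((I (n + 1) (by linarith)).sub (I n h1)).congr_fun (fun t _ => ?_) measurableSet_Ioi
      simp only [Pi.sub_apply]; rw [add_mul, neg_add, exp_add]; ring_nf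
    have sub : Icc (e / 2) e ⊆ Ioi 0 := fun s hs => lt_of_lt_of_le (half_pos e0) hs.1
    have h2 := setIntegral_mono_set In ((ae_restrict_mem measurableSet_Ioi).mono (J0 n)) sub.eventuallyLE
    have h3 := setIntegral_ge_of_const_le_real (c := exp (-e) ^ n * ((1 - exp (-(e / 2))) * m t))
      measurableSet_Icc (by simp) (fun s hs => by
        rw [← exp_nat_mul]
        have := m0 t ht
        have := an (sub hs) ht (hs.2.trans e1)
        gcongr
        · nlinarith [hs.2]
        · simpa using (sub hs).le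
        · exact hs.1) (In.mono_set sub)
    rw [Real.volume_real_Icc_of_le (by linarith)] at h3
    linarith
  have := E 1 le_rfl
  rw [setIntegral_congr_fun measurableSet_Ioi (g := fun _ => 0) fun t ht => by simp [mz t ht]] at this
  have h : (D - N) / (p ^ (1 + 1) + D) < (D - N) / (p ^ 1 + D) :=
    div_lt_div_of_pos_left (by linarith) (P 1 le_rfl).1 (by rw [pow_add, pow_one]; nlinarith)
  simp only [integral_zero] at this
  linarith

end Pool.Agent.Results.MP_e444d1_an.NoCBF
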